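import Pool.Agent.W601.RP.Stm2

/-!
# Representation of the elements of `H`
-/

set_option autoImplicit false

namespace Pool.Agent.W366.RP

open Pool.Agent.W601.RP

theorem rep : S_REP := by
  intro h hh
  have key : ∃ l : (ℕ → ℕ) →₀ ℤ, (∀ q ∈ l.support, q ∈ QQ) ∧
      h = l.sum (fun q a => a • x q) := by
    unfold H at hh
    induction hh using AddSubgroup.closure_induction with
    | mem f hf =>
      obtain ⟨q, hq, rfl⟩ := hf
      refine ⟨Finsupp.single q 1, fun q' hq' => ?_, ?_⟩
      · have := Finsupp.support_single_subset hq'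
        rw [Finset.mem_singleton] at this
        rw [this]
        exact hq
      · rw [Finsupp.sum_single_index (h := fun (q : ℕ → ℕ) (a : ℤ) => a • x q) (zero_smul ℤ (x q)),
          one_smul]
    | zero =>
      refine ⟨0, fun q hq => ?_, ?_⟩
      · rw [Finsupp.support_zero] at hq
        exact absurd hq (Finset.notMem_empty q)
      · rw [Finsupp.sum_zero_index]
    | add f g _ _ h1 h2 =>
      obtain ⟨l1, a1, b1⟩ := h1
      obtain ⟨l2, a2, b2⟩ := h2
      classical
      refine ⟨l1 + l2, fun q hq => ?_, ?_⟩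
      · rcases Finset.mem_union.1 (Finsupp.support_add hq) with h | h
        · exact a1 q h
        · exact a2 q h
      · rw [Finsupp.sum_add_index' (h := fun (q : ℕ → ℕ) (a : ℤ) => a • x q)
          (fun q => zero_smul ℤ (x q)) (fun q a b => add_smul a b (x q)), ← b1, ← b2]
    | neg f _ h1 =>
      obtain ⟨l1, a1, b1⟩ := h1
      refine ⟨-l1, fun q hq => ?_, ?_⟩
      · rw [Finsupp.support_neg] at hq
        exact a1 q hq
      · rw [Finsupp.sum_neg_index (h := fun (q : ℕ → ℕ) (a : ℤ) => a • x q)
          (fun q => zero_smul ℤ (x q)), b1]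
        unfold Finsupp.sum
        rw [← Finset.sum_neg_distrib]
        refine Finset.sum_congr rfl fun q _ => ?_
        exact (neg_smul (l1 q) (x q)).symm
  obtain ⟨l, hl, hs⟩ := key
  exact ⟨l.support, l, fun q hq => ⟨hl q hq, Finsupp.mem_support_iff.1 hq⟩, hs⟩

end Pool.Agent.W366.RP
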