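import Pool.Agent.W829.RP.Defs

/-!
# The wet part of a positively curved body, lower bound
-/

set_option autoImplicit false

open MeasureTheory Set Module Filter
open scoped ENNReal Topology

namespace Pool.Agent.W366.RP

open Pool.Agent.W829.RP

theorem fl (hOB : S_OB) (hBA : S_BA) (hBC : S_BC) (hLAY : S_LAY) : S_FL := by
  intro k K hP hk
  obtain ⟨R, x0, ρ, hR, hx0, hρ, hu⟩ := hBA k K hP.1 hk (hOB k K hP hk)
  obtain ⟨C, hC, hCb⟩ := hBC k R hk hR
  obtain ⟨c, h0, hc, hh0, hL⟩ := hLAY (E k) K hP.1 (by rw [finrank_euclideanSpace_fin]; exact hk)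
    x0 hx0 ρ hρ
  set a : ℝ := ((k : ℝ) + 1) / 2 with ha
  have ha0 : 0 < a := by positivity
  have hb : 2 / ((k : ℝ) + 1) = a⁻¹ := by rw [ha, inv_div]
  set H : ℝ := min h0 R with hH
  have hH0 : 0 < H := lt_min hh0 hR
  refine ⟨c * (1 / (2 * C)) ^ (2 / ((k : ℝ) + 1)), 2 * C * H ^ a, by positivity, by positivity,
    fun s hs hs0 => ?_⟩
  set h : ℝ := (s / (2 * C)) ^ (2 / ((k : ℝ) + 1)) with hh
  have hq : 0 < s / (2 * C) := by positivity
  have hpos : 0 < h := Real.rpow_pos_of_pos hq _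
  have hle : h ≤ H := by
    have h1 : s / (2 * C) ≤ H ^ a := by
      rw [div_le_iff₀ (by positivity)]
      linarith
    calc h ≤ (H ^ a) ^ (2 / ((k : ℝ) + 1)) := Real.rpow_le_rpow hq.le h1 (by positivity)
      _ = H := by rw [hb, ← Real.rpow_mul hH0.le, mul_inv_cancel₀ ha0.ne', Real.rpow_one]
  have hha : h ^ a = s / (2 * C) := by
    rw [hh, hb, ← Real.rpow_mul hq.le, inv_mul_cancel₀ ha0.ne', Real.rpow_one]
  have hCh : C * h ^ a = s / 2 := by
    rw [hha]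
    field_simp
  have hch : c * (1 / (2 * C)) ^ (2 / ((k : ℝ) + 1)) * s ^ (2 / ((k : ℝ) + 1)) = c * h := by
    rw [hh, mul_assoc, ← Real.mul_rpow (by positivity) hs.le]
    congr 2
    ring
  rw [hch]
  refine (hL h hpos (hle.trans (min_le_left _ _))).trans (measure_mono ?_)
  rintro z ⟨hz, x, hx, hxρ, hzx⟩
  refine ⟨hz, ?_⟩
  obtain ⟨u, hu1, hKb⟩ := hu x hx hxρ
  have h1 : vf K z ≤ volume (cap K (innerSL ℝ u) (innerSL ℝ u z)) :=
    iInf_le (fun ℓ : E k →L[ℝ] ℝ => volume (cap K ℓ (ℓ z))) (innerSL ℝ u)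
  have h2 : cap K (innerSL ℝ u) (innerSL ℝ u z) ⊆
      {y : E k | y ∈ Metric.closedBall (x - R • u) R ∧ inner ℝ u x - h ≤ inner ℝ u y} := by
    rintro y ⟨hy, hy'⟩
    refine ⟨hKb hy, ?_⟩
    have h3 : inner ℝ u x - inner ℝ u z ≤ h := by
      rw [← inner_sub_right]
      calc inner ℝ u (x - z) ≤ ‖u‖ * ‖x - z‖ := real_inner_le_norm _ _
        _ ≤ h := by rw [hu1, one_mul, ← dist_eq_norm, dist_comm]; exact hzx
    have h4 : (inner ℝ u z : ℝ) ≤ inner ℝ u y := hy'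
    linarith
  have h3 := hCb x u hu1 h hpos (hle.trans (min_le_right _ _))
  rw [hCh] at h3
  calc vf K z ≤ _ := h1
    _ ≤ _ := measure_mono h2
    _ ≤ ENNReal.ofReal (s / 2) := h3
    _ < ENNReal.ofReal s := (ENNReal.ofReal_lt_ofReal_iff hs).2 (by linarith)

end Pool.Agent.W366.RP
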