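import Pool.Agent.W829.RP.Defs

/-!
# Scaling and continuity of caps
-/

set_option autoImplicit false

open MeasureTheory Set Module Filter
open scoped ENNReal Topology

namespace Pool.Agent.W366.RP

open Pool.Agent.W829.RP

theorem sc : S_SC := by
  intro V _ _ _ _ _ _ K hK ℓ z hz hmax r δ hr0 hr1 hδ
  have h1 : (AffineMap.homothety z r : V → V) '' (cap K ℓ (ℓ z - δ)) ⊆ cap K ℓ (ℓ z - r * δ) := by
    rintro _ ⟨w, ⟨hwK, hw⟩, rfl⟩
    have e : AffineMap.homothety z r w = (1 - r) • z + r • w := by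
      rw [AffineMap.homothety_apply, vsub_eq_sub, vadd_eq_add, smul_sub, sub_smul, one_smul]
      abel
    refine ⟨?_, ?_⟩
    · rw [e]
      exact hK.1 hz hwK (by linarith) hr0 (by ring)
    · rw [e, map_add, map_smul, map_smul, smul_eq_mul, smul_eq_mul]
      nlinarith
  have h2 := Measure.addHaar_image_homothety (volume : Measure V) z r (cap K ℓ (ℓ z - δ))
  rw [abs_of_nonneg (pow_nonneg hr0 _)] at h2
  rw [← h2]
  exact measure_mono h1

theorem level_null {V : Type} [NormedAddCommGroup V] [NormedSpace ℝ V] [FiniteDimensional ℝ V]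
    [MeasureSpace V] [BorelSpace V] [(volume : Measure V).IsAddHaarMeasure] (ℓ : V →L[ℝ] ℝ)
    (hℓ : ℓ ≠ 0) (s : ℝ) : volume {x : V | ℓ x = s} = 0 := by
  by_cases h : ∃ x0, ℓ x0 = s
  · obtain ⟨x0, hx0⟩ := h
    have h1 := measure_preimage_add_right (volume : Measure V) x0 {x : V | ℓ x = s}
    rw [← h1]
    have h2 : (fun x => x + x0) ⁻¹' {x : V | ℓ x = s} =
        ((LinearMap.ker (ℓ : V →ₗ[ℝ] ℝ) : Submodule ℝ V) : Set V) := by
      ext x
      change ℓ (x + x0) = s ↔ ℓ x = 0
      rw [map_add, hx0, add_eq_right]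
    rw [h2]
    refine Measure.addHaar_submodule _ _ ?_
    intro h3
    apply hℓ
    ext x
    have h4 : x ∈ LinearMap.ker (ℓ : V →ₗ[ℝ] ℝ) := by
      rw [h3]
      exact Submodule.mem_top
    exact h4
  · have h1 : {x : V | ℓ x = s} = ∅ := by
      ext x
      refine ⟨fun hx => (h ⟨x, hx⟩).elim, fun hx => hx.elim⟩
    rw [h1, measure_empty]

theorem cap_eq {V : Type} [NormedAddCommGroup V] [NormedSpace ℝ V] [FiniteDimensional ℝ V]
    [MeasureSpace V] [BorelSpace V] (K : Set V) (ℓ : V →L[ℝ] ℝ) (s : ℝ) :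
    volume (cap K ℓ s) = ∫⁻ x, {x : V | s ≤ ℓ x}.indicator 1 x ∂(volume.restrict K) := by
  have hm : MeasurableSet {x : V | s ≤ ℓ x} := measurableSet_le measurable_const ℓ.continuous.measurable
  rw [lintegral_indicator_one hm, Measure.restrict_apply hm]
  congr 1
  ext x
  exact and_comm

theorem cap_cont {V : Type} [NormedAddCommGroup V] [NormedSpace ℝ V] [FiniteDimensional ℝ V]
    [MeasureSpace V] [BorelSpace V] [(volume : Measure V).IsAddHaarMeasure] (K : Set V)
    (hK : IsCompact K) (ℓ : V →L[ℝ] ℝ) (hℓ : ℓ ≠ 0) :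
    Continuous fun s : ℝ => volume (cap K ℓ s) := by
  rw [continuous_iff_continuousAt]
  intro s0
  have h0 : Tendsto (fun s : ℝ => ∫⁻ x, {x : V | s ≤ ℓ x}.indicator 1 x ∂(volume.restrict K))
      (𝓝 s0) (𝓝 (∫⁻ x, {x : V | s0 ≤ ℓ x}.indicator 1 x ∂(volume.restrict K))) := by
    refine tendsto_lintegral_filter_of_dominated_convergence (fun _ => 1) ?_ ?_ ?_ ?_
    · refine Eventually.of_forall fun s => ?_
      exact measurable_one.indicator
        (measurableSet_le measurable_const ℓ.continuous.measurable)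
    · refine Eventually.of_forall fun s => Eventually.of_forall fun x => ?_
      by_cases hx : x ∈ {x : V | s ≤ ℓ x}
      · rw [indicator_of_mem hx]
        exact le_rfl
      · rw [indicator_of_notMem hx]
        exact bot_le
    · rw [lintegral_one, Measure.restrict_apply_univ]
      exact hK.measure_lt_top.ne
    · have h1 : ∀ᵐ x ∂(volume : Measure V), ℓ x ≠ s0 := by
        rw [ae_iff]
        simp only [ne_eq, not_not]
        exact level_null ℓ hℓ s0
      filter_upwards [ae_restrict_of_ae h1] with x hx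
      refine tendsto_const_nhds.congr' ?_
      rcases lt_or_gt_of_ne hx with h | h
      · filter_upwards [lt_mem_nhds h] with s hs
        rw [indicator_of_notMem, indicator_of_notMem]
        · exact not_le.2 hs
        · exact not_le.2 h
      · filter_upwards [gt_mem_nhds h] with s hs
        have e1 : x ∈ {x : V | s ≤ ℓ x} := le_of_lt hs
        have e2 : x ∈ {x : V | s0 ≤ ℓ x} := le_of_lt h
        rw [indicator_of_mem e1, indicator_of_mem e2]
  have h1 : (fun s : ℝ => volume (cap K ℓ s)) =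
      fun s : ℝ => ∫⁻ x, {x : V | s ≤ ℓ x}.indicator 1 x ∂(volume.restrict K) :=
    funext fun s => cap_eq K ℓ s
  rw [h1]
  exact h0

theorem cv : S_CV := by
  intro V _ _ _ _ _ _ K hK ℓ hℓ s τ
  have hc := cap_cont K hK.2.1 ℓ hℓ
  have hcomp : IsCompact (ℓ '' K) := hK.2.1.image ℓ.continuous
  obtain ⟨m, hm⟩ := hcomp.bddBelow
  obtain ⟨m', hm'⟩ := hcomp.bddAbove
  constructor
  · intro h1 h2
    have h3 : volume (cap K ℓ (min s m)) = volume K := by
      congr 1
      ext x
      refine ⟨fun h => h.1, fun h => ⟨h, (min_le_right _ _).trans (hm ⟨x, h, rfl⟩)⟩⟩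
    have h4 := intermediate_value_Icc' (min_le_left s m) hc.continuousOn
    obtain ⟨s', hs', he⟩ := h4 ⟨h1, by rw [h3]; exact h2⟩
    exact ⟨s', hs'.2, he⟩
  · intro h1
    have h3 : volume (cap K ℓ (max s (m' + 1))) = 0 := by
      have h4 : cap K ℓ (max s (m' + 1)) = ∅ := by
        ext x
        refine ⟨fun h => ?_, fun h => h.elim⟩
        have h5 := (le_max_right s (m' + 1)).trans h.2
        have h6 : ℓ x ≤ m' := hm' ⟨x, h.1, rfl⟩
        exact absurd (h5.trans h6) (by linarith)
      rw [h4, measure_empty]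
    have h4 := intermediate_value_Icc' (le_max_left s (m' + 1)) hc.continuousOn
    obtain ⟨s', hs', he⟩ := h4 ⟨by rw [h3]; exact bot_le, h1⟩
    exact ⟨s', hs'.1, he⟩

end Pool.Agent.W366.RP
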